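import Pool.Agent.Lib_MP_3937af_ck.Final

/-!
# For which `λ` can `P(λ)/Fin` have an automorphism nontrivial on every cocountable set?
(MP_3937af_lc)

ZFC theorem: if some automorphism of `P(Λ)/Fin` is not trivial on any cocountable set, then it is
already not trivial on any cocountable subset of some `S ⊆ Λ`, where `|S|` is `ℵ₁` or a strongly
inaccessible cardinal which is not weakly compact, and `P(S)/Fin` has such an automorphism. So the
least `λ` as in Q1 is `ω₁` or inaccessible, and below the first inaccessible cardinal Q1 is a
question about `ω₁` alone.

Proof. Let `Φ`, `Ψ` be liftings of the automorphism and its inverse, and say that `S` is fine if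
the automorphism is induced by a map on `S` minus a countable set. Two maps inducing it on the same
set differ at finitely many points. Let `S` be a set of minimal size which is not fine, `|S| > ℵ₁`.
* `|S|` is regular: `S` is the union of a chain of fewer than `|S|` fine sets. The maps agree off a
  set of size less than `|S|`, so they give a map `g`. A maximal disjoint family of countable
  infinite sets `C` with `Φ(C) ∩ g[C]` finite is countable, since otherwise the union of `ℵ₁`
  of its members is fine, and `g` agrees with the corresponding map at all but countably many
  points.
* If `|S| ≤ 2 ^ κ` and `κ⁺ < |S|`, take `κ` sets separating the points of `Φ(S)`; they determine a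
  map `g` which agrees with the maps inducing the automorphism on sets of size `κ⁺` off sets of
  size `κ`, and we argue as before.
* If `κ ^ ω = κ < |S| ≤ 2 ^ κ`, then `Φ` commutes with countable Boolean combinations modulo sets
  of size `κ`, and off a set of size `κ` the automorphism is induced by the relation that `ξ` and
  `η` belong to the same sets of the separating families.
* If `|S| = κ⁺`, where `κ` is a strong limit cardinal of countable cofinality, take functions
  `d n` on `Φ(S)` with small ranges which together separate points. All but `κ` points `ξ` have
  a well defined value of each `d n` at the image of `ξ`, and this value is the correct one for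
  all but countably many points of each set of size `ℵ₁`.
* If `|S|` is weakly compact the maps on the initial segments of `S` have a limit.
Finally `|Φ(S)| = |S|` if countable sets have countable images. If they have not, then
`P(ω)/Fin` and `P(ω₁)/Fin` are isomorphic, and exchanging the two gives an automorphism of
`P(ω₁)/Fin` which is not trivial on any cocountable set.

All definitions used in the statement are in `Pool/Agent/Lib_MP_3937af_ck/Defs.lean`.
-/

universe u

namespace Pool.Agent.Results.MP_3937af_lc.LeastLambda

open Cardinal CKer

/-- (1) An automorphism `π` of `P(Λ)/Fin` which is not trivial on any cocountable set is not trivial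
on any cocountable subset of some `S ⊆ Λ`, where `|S|` is `ℵ₁` or an inaccessible cardinal without
the partition property `κ → (κ)²₂` (and without the weaker property `Decides`), and `P(S)/Fin` has
an automorphism which is not trivial on any cocountable set. (2) If `P(Λ)/Fin` has an automorphism
which is not trivial on any cocountable set, and the inaccessible cardinals `≤ |Λ|`, if any, have
one of the two properties, then so does `P(Λ')/Fin` for every uncountable `Λ'`. -/
theorem result :
    (∀ (Λ : Type u) (π : PFin Λ ≃o PFin Λ), (∀ A : Set Λ, Aᶜ.Countable → ¬ TrivialOn π A) →
      ∃ S : Set Λ, (#S = ℵ₁ ∨ (#S).IsInaccessible ∧ ¬ Arrow S ∧ ¬ Decides S) ∧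
        (∀ X : Set Λ, X.Countable → ¬ TrivialOn π (S \ X)) ∧ Nontriv S) ∧
    (∀ Λ Λ' : Type u, Nontriv Λ → (∀ S : Set Λ, (#S).IsInaccessible → Arrow S ∨ Decides S) →
      ℵ₀ < #Λ' → Nontriv Λ') :=
  ⟨fun _ π hπ => local_form π hπ, fun _ _ h h1 h2 => transfer h h1 h2⟩

end Pool.Agent.Results.MP_3937af_lc.LeastLambda
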