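import Pool.Agent.Lib_BVM.Main

/-!
# A nowhere trivial automorphism of `P(ω₁) / Fin` is consistent (MP_3937af_lc)

There is a model of ZFC in which some automorphism of the Boolean algebra `P(ω₁) / Fin` is trivial
on no infinite subset of `ω₁`, in particular on no cocountable subset.

Proof. Let `G` be generic for adding `ω₁` Cohen reals, `c ⊆ ω₁` the generic set. For a subset `A` of
`ω₁` in the extension with a name `τ` let `F(A)` be the set of all `i` such that `i` belongs to the
evaluation of `τ` by the generic filter in which the `i`-th Cohen real is flipped. If a condition
forces `τ = τ'`, it is not changed by flipping `i` for almost all `i`, so `F` is well defined modulo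
finite sets, and it is an automorphism (an involution) of `P(ω₁) / Fin`. It fixes every set of the
ground model and maps `c` to its complement. Suppose that `F` is induced by `e` on an infinite set
`A`; by the countable chain condition we may assume that `A` is contained in a countable set of the
ground model. As countably many names have a countable support, there would be a set `D` of the
ground model with infinitely many `i ∈ A ∩ D`, `e i ∉ D` if `e` were not the identity at almost all
points of `A`, and this contradicts `F(A ∩ D) = F(A) ∩ D`. So `F` is the identity below `A`, and
`F(A ∩ c) = F(A) \ c`, `F(A \ c) = F(A) ∩ c` show that `A ∩ c` and `A \ c` are finite.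

The model is the quotient of the Boolean valued universe over the regular open algebra of
`2 ^ ω₁` by an ultrafilter. All definitions used in the statement are in
`Pool/Agent/Lib_BVM/Defs.lean`.
-/

namespace Pool.Agent.Results.MP_3937af_lc.NowhereTrivial

/-- There is a model `(M, E)` of ZFC and elements `l`, `r` of it such that, in the model, `l` is
`ω₁`, `r` induces an automorphism of `P(l) / Fin`, and every `a ⊆ l` on which this automorphism is
trivial is finite. -/
theorem result : ∃ (M : Type 1) (E : M → M → Prop), Pool.Agent.BVM.ModelZFC E ∧
    ∃ l r : M, Pool.Agent.BVM.IsOmegaOne E l ∧ Pool.Agent.BVM.InducesAut E r l ∧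
      ∀ a : M, Pool.Agent.BVM.Sub E a l → Pool.Agent.BVM.TrivialOn E r l a →
        Pool.Agent.BVM.Fin E a :=
  Pool.Agent.BVM.main

end Pool.Agent.Results.MP_3937af_lc.NowhereTrivial
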